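import Pool.Agent.H46.VT.Defs

/-!
# MP_36d07e_lc, module BK: a true requirement which is never won gives a tardy presentation
-/

namespace Pool.Agent.H54.VT

open _root_.VT
open Nat.Partrec (Code)
open Nat.Partrec.Code Encodable Denumerable

theorem pf_BK (hBK1 : TARGET_BK1) (hBK2 : TARGET_BK2) : TARGET_BK := by
  intro cU cC E p a A hE hp ha hrun hAC hCU hWM i
  induction i using Nat.strong_induction_on with
  | _ i ih =>
    intro hH hN
    refine hBK2 cU cC E p a A hE hp ha hrun hAC hCU hWM i hH hN fun i' hi' hinf => ?_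
    obtain ⟨h1, h2⟩ := hBK1 cU cC E p a A hE hrun hAC hCU i' hinf
    exact ⟨h1.1, ih i' hi' h1 h2⟩

end Pool.Agent.H54.VT
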