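import Pool.Agent.H46.VT.Red

/-!
# MP_36d07e_lc, module PR: after the pointer has passed an active requirement, the answer has been
given at the end of the block
-/

namespace Pool.Agent.H54.VT

open _root_.VT
open Nat.Partrec (Code)
open Nat.Partrec.Code Encodable Denumerable

theorem wst_mono' {c : Code} {s t x : ℕ} (h : s ≤ t) (hw : Wst c s x) : Wst c t x := by
  unfold Wst at *
  obtain ⟨y, hy⟩ := Option.isSome_iff_exists.1 hw
  have := evaln_mono h (show y ∈ evaln s c x from hy)
  exact Option.isSome_iff_exists.2 ⟨y, this⟩

theorem pf_PR (_hRA : TARGET_RA) (hPT : TARGET_PT) : TARGET_PR := by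
  intro ph hrun x t t' k
  induction k using Nat.strong_induction_on generalizing t with
  | _ k ih =>
    intro htt hlev hk hpos hact hb1 hb2
    have hRA := _hRA ph hrun
    obtain ⟨-, -, -, -, -, -, -, hmon, -⟩ := hRA
    -- the pointer moves
    have hlt : (ph t' x).2 < (ph t x).2 := by
      rw [hpos]
      unfold ptr
      split_ifs with h
      · rw [hb2 h]; omega
      · have := hb1 (by omega); omega
    have hex : ∃ n, ph (t + n + 1) x ≠ ph t x := by
      by_contra hno
      push Not at hno
      rcases Nat.lt_or_ge t t' with h1 | h1
      · have h2 := hno (t' - t - 1)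
        rw [show t + (t' - t - 1) + 1 = t' by omega] at h2
        rw [h2] at hlt
        exact absurd hlt (lt_irrefl _)
      · have : t' = t := by omega
        subst this
        exact absurd hlt (lt_irrefl _)
    classical
    obtain ⟨n, hn, hmin⟩ : ∃ n, ph (t + n + 1) x ≠ ph t x ∧ ∀ m < n, ph (t + m + 1) x = ph t x :=
      ⟨Nat.find hex, Nat.find_spec hex, fun m hm => by
        have := Nat.find_min hex hm
        push Not at this
        exact this⟩
    have hsame : ∀ m ≤ n, ph (t + m) x = ph t x := by
      intro m hm
      rcases m with _ | m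
      · rfl
      · exact hmin m (by omega)
    have ht1 : ph (t + n) x = ph t x := hsame n le_rfl
    have ht1' : t + n < t' := by
      by_contra hge
      have h2 := hsame (t' - t) (by omega)
      rw [show t + (t' - t) = t' by omega] at h2
      rw [h2] at hlt
      exact absurd hlt (lt_irrefl _)
    set t1 := t + n with ht1def
    have hposc : (ph t1 x).2 = ptr x k := by rw [ht1, hpos]
    have hmv : MvC ph t1 x := by
      by_contra hno
      apply hn
      rw [hrun.2 t1 x]
      unfold nxt
      rw [if_neg (fun h => hno h.2)]
      exact ht1
    have hptr : ptr x k ≠ LX x + 4 ∧ ptr x k ≠ LX x + 3 ∧ ptr x k ≠ mX x + 2 ∧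
        ptr x k ≠ mX x + 1 := by
      unfold ptr
      split_ifs with h
      · refine ⟨by omega, by omega, by omega, by omega⟩
      · refine ⟨by omega, by omega, by omega, by omega⟩
    have hann : ¬ (AnnAt ph t1 x k ∧ ¬ Wst (rb k) t1 x) := by
      unfold MvC at hmv
      rw [hposc] at hmv
      rcases hmv with h | h | h | h | ⟨k', hk', hp', hn'⟩
      · exact absurd h.1 hptr.1
      · exact absurd h.1 hptr.2.1
      · exact absurd h.1 hptr.2.2.1
      · exact absurd h.1 hptr.2.2.2
      · have : k' = k := by
          unfold ptr at hp'
          split_ifs at hp' <;> omega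
        subst this
        exact hn'
    have hact1 : act ph t1 x k := by
      obtain ⟨h1, h2, h3⟩ := hact
      refine ⟨?_, h2, wst_mono' (by omega) h3⟩
      rw [ht1]
      exact h1
    by_cases hw : Wst (rb k) t1 x
    · exact wst_mono' (by omega) hw
    have hna : ¬ AnnAt ph t1 x k := fun h => hann ⟨h, hw⟩
    have hk' : ∃ k' < k, act ph t1 x k' ∧ rl k' = rl k ∧ rb k' = rb k := by
      by_contra hno
      push Not at hno
      exact hna ⟨hk, hposc, hact1, fun k' hk' h => hno k' hk' h.1 h.2.1 h.2.2⟩
    obtain ⟨k', hk'k, hact', hrl, hrb⟩ := hk'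
    have hblk : mX x ≤ k → mX x ≤ k' := by
      intro h
      by_contra hlt'
      have e1 : rl k = Nat.pair (mX x) (ph t1 x).1 + 1 := by
        have := hact1.1
        unfold cur at this
        rwa [if_neg (by omega)] at this
      have e2 : rl k' = 0 := by
        have := hact'.1
        unfold cur at this
        rwa [if_pos (by omega)] at this
      omega
    have hlev1 : (ph t1 x).1 = (ph t' x).1 := by rw [ht1, hlev]
    obtain ⟨t2, h12, h2', he⟩ := hPT ph hrun x t1 t' (ptr x k') (by omega) (by
      rw [hposc]
      unfold ptr
      split_ifs <;> omega) (Or.inr ⟨hlev1, by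
        unfold ptr
        split_ifs with h
        · have := hb2
          by_cases h2 : k < mX x
          · rw [hb2 h2]; omega
          · have := hblk (by omega)
            omega
        · have := hb1 (by omega)
          omega⟩)
    have hres := ih k' hk'k t2 h2' (by rw [he]; exact hlev1) (by omega) (by rw [he]) (by
      obtain ⟨h1, h2, h3⟩ := hact'
      refine ⟨?_, h2, wst_mono' h12 h3⟩
      rw [he]
      exact h1) (fun h => hb1 (by omega)) (fun h => by
        by_cases h2 : k < mX x
        · exact hb2 h2
        · have := hblk (by omega)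
          omega)
    rw [hrb] at hres
    exact hres

end Pool.Agent.H54.VT
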